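import Mathlib

set_option autoImplicit false

open Filter Topology Set

namespace Pool.Agent.Results.MP_b3b95b_an.BoundedExtensions

variable {𝕜 : Type} [RCLike 𝕜] {E : Type} [NormedAddCommGroup E] [NormedSpace 𝕜 E]

/-- Extension of a functional from `G` to `E` that vanishes on `U`. -/
theorem exists_ext (G U : Submodule 𝕜 E) (hU : IsClosed (U : Set E)) (hGU : Disjoint G U)
    (φ : StrongDual 𝕜 G) (C : ℝ) (hC : 0 ≤ C) (h : ∀ g : G, ∀ u ∈ U, ‖φ g‖ ≤ C * ‖(g : E) + u‖) :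
    ∃ f : StrongDual 𝕜 E, (∀ g : G, f g = φ g) ∧ (∀ u ∈ U, f u = 0) ∧ ‖f‖ ≤ C := by
  have : IsClosed (U : Set E) := hU
  let i : G →ₗ[𝕜] E ⧸ U := U.mkQ ∘ₗ G.subtype
  have hi : Function.Injective i := by
    rw [← LinearMap.ker_eq_bot, LinearMap.ker_eq_bot']
    intro g hg
    have h1 : (g : E) ∈ U := (Submodule.Quotient.mk_eq_zero U).1 hg
    exact Subtype.ext (Submodule.disjoint_def.1 hGU g g.2 h1)
  let e : G ≃ₗ[𝕜] LinearMap.range i := LinearEquiv.ofInjective i hi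
  have hb : ∀ g : G, ‖φ g‖ ≤ C * ‖i g‖ := by
    intro g
    refine le_of_forall_pos_le_add fun δ hδ => ?_
    have hδ' : 0 < δ / (C + 1) := by positivity
    obtain ⟨m, hm, hm'⟩ := Submodule.Quotient.norm_mk_lt (S := U) (i g) hδ'
    have h1 : m - (g : E) ∈ U := by
      rw [← Submodule.Quotient.mk_eq_zero, Submodule.Quotient.mk_sub, hm]
      exact sub_self _
    have h2 := h g _ h1
    rw [add_sub_cancel] at h2
    calc ‖φ g‖ ≤ C * ‖m‖ := h2
      _ ≤ C * (‖i g‖ + δ / (C + 1)) := mul_le_mul_of_nonneg_left hm'.le hC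
      _ = C * ‖i g‖ + C * (δ / (C + 1)) := by ring
      _ ≤ C * ‖i g‖ + δ := by
        have : C * (δ / (C + 1)) ≤ δ := by
          rw [mul_div_assoc', div_le_iff₀ (by positivity)]
          nlinarith
        linarith
  let ψ₀ : LinearMap.range i →ₗ[𝕜] 𝕜 := φ.toLinearMap ∘ₗ e.symm.toLinearMap
  have hψ₀ : ∀ z : LinearMap.range i, ‖ψ₀ z‖ ≤ C * ‖z‖ := by
    intro z
    have h1 := hb (e.symm z)
    have h2 : i (e.symm z) = z := by
      have := e.apply_symm_apply z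
      exact congrArg Subtype.val this
    rw [h2] at h1
    exact h1
  let ψ : StrongDual 𝕜 (LinearMap.range i) := ψ₀.mkContinuous C hψ₀
  obtain ⟨F, hF, hFn⟩ := exists_extension_norm_eq (LinearMap.range i) ψ
  have hFi : ∀ g : G, F (i g) = φ g := by
    intro g
    have h1 := hF (e g)
    have h2 : ((e g : LinearMap.range i) : E ⧸ U) = i g := rfl
    rw [h2] at h1
    rw [h1]
    show φ (e.symm (e g)) = φ g
    rw [e.symm_apply_apply]
  refine ⟨F.comp U.mkQL, fun g => hFi g, fun u hu => ?_, ?_⟩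
  · show F (U.mkQ u) = 0
    have : U.mkQ u = 0 := (Submodule.Quotient.mk_eq_zero U).2 hu
    rw [this, map_zero]
  · refine ContinuousLinearMap.opNorm_le_bound _ hC fun x => ?_
    show ‖F (U.mkQ x)‖ ≤ C * ‖x‖
    have h1 : ‖F‖ ≤ C := by
      rw [hFn]
      exact LinearMap.mkContinuous_norm_le _ hC _
    calc ‖F (U.mkQ x)‖ ≤ ‖F‖ * ‖U.mkQ x‖ := F.le_opNorm _
      _ ≤ C * ‖x‖ := mul_le_mul h1 (Submodule.Quotient.norm_mk_le U x) (norm_nonneg _) hC

/-- The key estimate. -/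
theorem key (G U : Submodule 𝕜 E) (hG : IsClosed (G : Set E)) [FiniteDimensional 𝕜 U]
    (hGU : Disjoint G U) (φ : ℕ → StrongDual 𝕜 G) (C : ℝ) (hC : ∀ n, ‖φ n‖ ≤ C)
    (hφ : ∀ g : G, Tendsto (fun n => φ n g) atTop (𝓝 0)) (ε : ℝ) (hε : 0 < ε) :
    ∃ N, ∀ n, N ≤ n → ∀ g : G, ∀ u ∈ U, ‖φ n g‖ ≤ (2 * C + ε) * ‖(g : E) + u‖ := by
  have hC0 : 0 ≤ C := (norm_nonneg _).trans (hC 0)
  by_contra hcon
  push Not at hcon
  have hcl : IsClosed (G : Set E) := hG
  -- the projection onto `U` along `G` is bounded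
  let j : U →ₗ[𝕜] E ⧸ G := G.mkQ ∘ₗ U.subtype
  have hj : LinearMap.ker j = ⊥ := by
    rw [LinearMap.ker_eq_bot']
    intro u hu
    have h1 : (u : E) ∈ G := (Submodule.Quotient.mk_eq_zero G).1 hu
    exact Subtype.ext (Submodule.disjoint_def.1 hGU u h1 u.2)
  obtain ⟨A, hA0, hA⟩ := j.exists_antilipschitzWith hj
  have hAb : ∀ u : U, ∀ g : G, ‖(u : E)‖ ≤ A * ‖(g : E) + u‖ := by
    intro u g
    have h1 := hA.le_mul_dist u 0
    rw [dist_zero_right, map_zero, dist_zero_right] at h1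
    have h2 : ‖j u‖ ≤ ‖(g : E) + u‖ := by
      have h3 : j u = G.mkQ ((g : E) + u) := by
        rw [map_add]
        have : G.mkQ (g : E) = 0 := (Submodule.Quotient.mk_eq_zero G).2 g.2
        rw [this, zero_add]
        rfl
      rw [h3]
      exact Submodule.Quotient.norm_mk_le G _
    calc ‖(u : E)‖ = ‖u‖ := rfl
      _ ≤ A * ‖j u‖ := h1
      _ ≤ A * ‖(g : E) + u‖ := mul_le_mul_of_nonneg_left h2 A.2
  -- normalized bad vectors
  have hbad : ∀ N, ∃ n, N ≤ n ∧ ∃ g : G, ∃ u : U, ‖(g : E) + u‖ = 1 ∧ 2 * C + ε < ‖φ n g‖ := by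
    intro N
    obtain ⟨n, hn, g, u, hu, hlt⟩ := hcon N
    have hne : ‖(g : E) + u‖ ≠ 0 := by
      intro h0
      rw [h0, mul_zero] at hlt
      have h1 : (g : E) + u = 0 := norm_eq_zero.1 h0
      have h2 : (g : E) ∈ U := by
        rw [eq_neg_of_add_eq_zero_left h1]
        exact U.neg_mem hu
      have h3 : g = 0 := Subtype.ext (Submodule.disjoint_def.1 hGU g g.2 h2)
      rw [h3, map_zero, norm_zero] at hlt
      exact lt_irrefl _ hlt
    set t : ℝ := ‖(g : E) + u‖ with ht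
    have ht0 : 0 < t := lt_of_le_of_ne (norm_nonneg _) (Ne.symm hne)
    refine ⟨n, hn, ((t : 𝕜)⁻¹) • g, ((t : 𝕜)⁻¹) • ⟨u, hu⟩, ?_, ?_⟩
    · have h1 : (((((t : 𝕜)⁻¹) • g : G) : E) + ((((t : 𝕜)⁻¹) • (⟨u, hu⟩ : U) : U) : E))
          = ((t : 𝕜)⁻¹) • ((g : E) + u) := by
        rw [smul_add]; rfl
      rw [h1, norm_smul, norm_inv, RCLike.norm_ofReal, abs_of_pos ht0, ← ht,
        inv_mul_cancel₀ ht0.ne']
    · rw [map_smul, norm_smul, norm_inv, RCLike.norm_ofReal, abs_of_pos ht0]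
      rw [inv_mul_eq_div, lt_div_iff₀ ht0]
      exact hlt
  choose n hn g u hgu hlt using hbad
  have hub : ∀ N, u N ∈ Metric.closedBall (0 : U) A := by
    intro N
    have := hAb (u N) (g N)
    rw [hgu, mul_one] at this
    rw [Metric.mem_closedBall, dist_zero_right]
    exact this
  have hprop : ProperSpace U := FiniteDimensional.proper 𝕜 U
  obtain ⟨u₀, -, a, ha, hlim⟩ := (isCompact_closedBall (0 : U) A).tendsto_subseq hub
  let δ : ℝ := ε / (4 * (C + 1))
  have hδ : 0 < δ := by positivity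
  rw [Metric.tendsto_atTop] at hlim
  obtain ⟨M, hM⟩ := hlim δ hδ
  have hclose : ∀ k, M ≤ k → ‖((g (a k) : G) : E) + u₀‖ ≤ 1 + δ := by
    intro k hk
    have h1 := hM k hk
    rw [dist_eq_norm] at h1
    have h2 : ((g (a k) : G) : E) + u₀ = (((g (a k) : G) : E) + u (a k)) - ((u (a k) - u₀ : U) : E) := by
      rw [Submodule.coe_sub]; abel
    rw [h2]
    refine (norm_sub_le _ _).trans ?_
    rw [hgu]
    have h3 : ‖((u (a k) - u₀ : U) : E)‖ < δ := h1
    linarith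
  have hfix := hφ (g (a M))
  rw [tendsto_zero_iff_norm_tendsto_zero] at hfix
  have hev : ∀ᶠ m in atTop, ‖φ m (g (a M))‖ < ε / 2 := hfix.eventually (gt_mem_nhds (by positivity))
  obtain ⟨M', hM'⟩ := eventually_atTop.1 hev
  let k : ℕ := max M M'
  have hk1 : M ≤ k := le_max_left _ _
  have hk2 : M' ≤ n (a k) := (le_max_right _ _).trans ((ha.id_le k).trans (hn (a k)))
  have h1 := hM' _ hk2
  have h2 : ‖g (a k) - g (a M)‖ ≤ 2 + 2 * δ := by
    have h3 : ((g (a k) - g (a M) : G) : E) = (((g (a k) : G) : E) + u₀) - (((g (a M) : G) : E) + u₀) := by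
      rw [Submodule.coe_sub]; abel
    calc ‖g (a k) - g (a M)‖ = ‖((g (a k) - g (a M) : G) : E)‖ := rfl
      _ ≤ ‖((g (a k) : G) : E) + u₀‖ + ‖((g (a M) : G) : E) + u₀‖ := by
        rw [h3]; exact norm_sub_le _ _
      _ ≤ _ := by linarith [hclose k hk1, hclose M le_rfl]
  have h3 : ‖φ (n (a k)) (g (a k))‖ ≤ C * (2 + 2 * δ) + ε / 2 := by
    have h4 : φ (n (a k)) (g (a k)) = φ (n (a k)) (g (a k) - g (a M)) + φ (n (a k)) (g (a M)) := by
      rw [map_sub]; ring
    rw [h4]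
    refine (norm_add_le _ _).trans ?_
    have h5 : ‖φ (n (a k)) (g (a k) - g (a M))‖ ≤ C * (2 + 2 * δ) := by
      refine ((φ (n (a k))).le_opNorm _).trans ?_
      exact mul_le_mul (hC _) h2 (norm_nonneg _) hC0
    linarith
  have h4 := hlt (a k)
  have h5 : C * (2 * δ) ≤ ε / 2 := by
    have : (C + 1) * (2 * δ) = ε / 2 := by
      simp only [δ]; field_simp; ring
    nlinarith
  linarith

/-- The closed linear span of a sequence. -/
def clspan (𝕜 : Type) [RCLike 𝕜] {E : Type} [NormedAddCommGroup E] [NormedSpace 𝕜 E]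
    (x : ℕ → E) : Submodule 𝕜 E :=
  (Submodule.span 𝕜 (Set.range x)).topologicalClosure

theorem mem_clspan (x : ℕ → E) (n : ℕ) : x n ∈ clspan 𝕜 x :=
  Submodule.le_topologicalClosure _ (Submodule.subset_span ⟨n, rfl⟩)

/-- Bounded coefficient functionals tend to zero pointwise. -/
theorem tendsto_zero (x : ℕ → E) (φ : ℕ → StrongDual 𝕜 (clspan 𝕜 x))
    (hφ : ∀ i j, φ i ⟨x j, mem_clspan x j⟩ = if i = j then 1 else 0) (C : ℝ)
    (hC : ∀ n, ‖φ n‖ ≤ C) (g : clspan 𝕜 x) : Tendsto (fun n => φ n g) atTop (𝓝 0) := by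
  have hC0 : 0 ≤ C := (norm_nonneg _).trans (hC 0)
  let W : Submodule 𝕜 (clspan 𝕜 x) :=
    { carrier := {g | ∃ N, ∀ n, N ≤ n → φ n g = 0}
      zero_mem' := ⟨0, fun n _ => map_zero _⟩
      add_mem' := by
        rintro a b ⟨N, hN⟩ ⟨M, hM⟩
        refine ⟨max N M, fun n hn => ?_⟩
        rw [map_add, hN n ((le_max_left _ _).trans hn), hM n ((le_max_right _ _).trans hn),
          add_zero]
      smul_mem' := by
        rintro c a ⟨N, hN⟩
        refine ⟨N, fun n hn => ?_⟩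
        rw [map_smul, hN n hn, smul_zero] }
  have hW : Submodule.span 𝕜 (Set.range x) ≤ W.map (clspan 𝕜 x).subtype := by
    rw [Submodule.span_le]
    rintro _ ⟨j, rfl⟩
    refine ⟨⟨x j, mem_clspan x j⟩, ⟨j + 1, fun n hn => ?_⟩, rfl⟩
    rw [hφ, if_neg (by omega)]
  rw [Metric.tendsto_atTop]
  intro ε hε
  have hg : (g : E) ∈ closure (Submodule.span 𝕜 (Set.range x) : Set E) := g.2
  obtain ⟨s, hs, hgs⟩ := Metric.mem_closure_iff.1 hg (ε / (C + 1)) (by positivity)
  obtain ⟨w, ⟨N, hN⟩, rfl⟩ := hW hs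
  refine ⟨N, fun n hn => ?_⟩
  rw [dist_zero_right]
  have h1 : φ n g = φ n (g - w) := by
    rw [map_sub, hN n hn, sub_zero]
  have h2 : ‖g - w‖ < ε / (C + 1) := by
    rw [dist_eq_norm] at hgs
    exact hgs
  rw [h1]
  calc ‖φ n (g - w)‖ ≤ ‖φ n‖ * ‖g - w‖ := (φ n).le_opNorm _
    _ ≤ C * (ε / (C + 1)) := mul_le_mul (hC n) h2.le (norm_nonneg _) hC0
    _ < ε := by
      rw [mul_div_assoc', div_lt_iff₀ (by positivity)]
      nlinarith

/-- Finite-dimensional subspaces transversal to `G` which together with `G` are dense. -/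
theorem exists_chain (G : Submodule 𝕜 E) (v : ℕ → E) :
    ∃ U : ℕ → Submodule 𝕜 E, U 0 = ⊥ ∧ Monotone U ∧ (∀ n, FiniteDimensional 𝕜 (U n)) ∧
      (∀ n, Disjoint G (U n)) ∧ ∀ n, v n ∈ G ⊔ U (n + 1) := by
  classical
  let S : Type := {U : Submodule 𝕜 E // FiniteDimensional 𝕜 U ∧ Disjoint G U}
  have step : ∀ (n : ℕ) (U : S), ∃ U' : S, U.1 ≤ U'.1 ∧ v n ∈ G ⊔ U'.1 := by
    rintro n ⟨U, hU, hGU⟩
    by_cases h : v n ∈ G ⊔ U
    · exact ⟨⟨U, hU, hGU⟩, le_rfl, h⟩
    · refine ⟨⟨U ⊔ Submodule.span 𝕜 {v n}, ?_, ?_⟩, le_sup_left, ?_⟩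
      · exact Submodule.finiteDimensional_sup _ _
      · rw [Submodule.disjoint_def]
        intro z hzG hz
        obtain ⟨a, ha, b, hb, rfl⟩ := Submodule.mem_sup.1 hz
        obtain ⟨c, rfl⟩ := Submodule.mem_span_singleton.1 hb
        by_cases hc : c = 0
        · subst hc
          rw [zero_smul, add_zero] at hzG ⊢
          exact Submodule.disjoint_def.1 hGU a hzG ha
        · exfalso
          apply h
          have h1 : v n = c⁻¹ • (a + c • v n) + c⁻¹ • (-a) := by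
            rw [← smul_add, add_neg_cancel_comm, smul_smul, inv_mul_cancel₀ hc, one_smul]
          rw [h1]
          exact Submodule.add_mem_sup (G.smul_mem _ hzG) (U.smul_mem _ (U.neg_mem ha))
      · exact Submodule.mem_sup_right (Submodule.mem_sup_right (Submodule.mem_span_singleton_self _))
  choose next hnext1 hnext2 using step
  let U₀ : S := ⟨⊥, inferInstance, disjoint_bot_right⟩
  let U : ℕ → S := fun n => Nat.rec U₀ (fun n U => next n U) n
  have hU : ∀ n, U (n + 1) = next n (U n) := fun _ => rfl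
  refine ⟨fun n => (U n).1, rfl, monotone_nat_of_le_succ fun n => ?_, fun n => (U n).2.1,
    fun n => (U n).2.2, fun n => ?_⟩
  · exact hnext1 n (U n)
  · exact hnext2 n (U n)

/-- Let `x` be a minimal sequence in a separable normed space `E` whose associated functionals
`φ n` (the functionals on the closed linear span of `x` biorthogonal to `x`) have norms at most
`C`.  For every `ε > 0` the `φ n` have extensions `f n` to `E` with norms at most `2 C + ε` such
that the sum of the closed linear span of `x` and of the common kernel of the `f n` is dense. -/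
theorem result (𝕜 : Type) [RCLike 𝕜] (E : Type) [NormedAddCommGroup E] [NormedSpace 𝕜 E]
    [TopologicalSpace.SeparableSpace E] (x : ℕ → E) (φ : ℕ → StrongDual 𝕜 (clspan 𝕜 x))
    (hφ : ∀ i j, φ i ⟨x j, mem_clspan x j⟩ = if i = j then 1 else 0)
    (C : ℝ) (hC : ∀ n, ‖φ n‖ ≤ C) (ε : ℝ) (hε : 0 < ε) :
    ∃ f : ℕ → StrongDual 𝕜 E, (∀ n, ∀ g : clspan 𝕜 x, f n (g : E) = φ n g) ∧
      (∀ n, ‖f n‖ ≤ 2 * C + ε) ∧
      Dense {z : E | ∃ g ∈ clspan 𝕜 x, ∃ y : E, (∀ n, f n y = 0) ∧ z = g + y} := by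
  classical
  have hC0 : 0 ≤ C := (norm_nonneg _).trans (hC 0)
  let G : Submodule 𝕜 E := clspan 𝕜 x
  have hG : IsClosed (G : Set E) := Submodule.isClosed_topologicalClosure _
  let v : ℕ → E := TopologicalSpace.denseSeq E
  have hv : DenseRange v := TopologicalSpace.denseRange_denseSeq E
  obtain ⟨U, hU0, hUm, hUf, hGU, hvU⟩ := exists_chain G v
  let P : ℕ → ℕ → Prop := fun n K =>
    ∀ g : G, ∀ u ∈ U K, ‖φ n g‖ ≤ (2 * C + ε) * ‖(g : E) + u‖
  have hP0 : ∀ n, P n 0 := by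
    intro n g u hu
    rw [hU0, Submodule.mem_bot] at hu
    rw [hu, add_zero]
    have h1 : ‖φ n g‖ ≤ C * ‖(g : E)‖ :=
      ((φ n).le_opNorm g).trans (mul_le_mul_of_nonneg_right (hC n) (norm_nonneg _))
    have h2 : C * ‖(g : E)‖ ≤ (2 * C + ε) * ‖(g : E)‖ :=
      mul_le_mul_of_nonneg_right (by linarith) (norm_nonneg _)
    linarith
  have hPN : ∀ K, ∃ N, ∀ n, N ≤ n → P n K := by
    intro K
    have := hUf K
    exact key G (U K) hG (hGU K) φ C hC (tendsto_zero x φ hφ C hC) ε hε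
  let κ : ℕ → ℕ := fun n => Nat.findGreatest (P n) n
  have hκ : ∀ n, P n (κ n) := fun n => Nat.findGreatest_spec (Nat.zero_le n) (hP0 n)
  have hκbig : ∀ K, ∃ N, ∀ n, N ≤ n → K ≤ κ n := by
    intro K
    obtain ⟨N, hN⟩ := hPN K
    refine ⟨max N K, fun n hn => ?_⟩
    exact Nat.le_findGreatest ((le_max_right _ _).trans hn) (hN n ((le_max_left _ _).trans hn))
  have hext : ∀ n, ∃ f : StrongDual 𝕜 E, (∀ g : G, f g = φ n g) ∧ (∀ u ∈ U (κ n), f u = 0) ∧
      ‖f‖ ≤ 2 * C + ε := by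
    intro n
    have := hUf (κ n)
    exact exists_ext G (U (κ n)) (Submodule.closed_of_finiteDimensional _) (hGU _) (φ n)
      (2 * C + ε) (by positivity) (hκ n)
  choose f hf1 hf2 hf3 using hext
  refine ⟨f, hf1, hf3, ?_⟩
  have hfx : ∀ i j, f i (x j) = if i = j then 1 else 0 := by
    intro i j
    rw [← hφ i j]
    exact hf1 i ⟨x j, mem_clspan x j⟩
  refine hv.mono ?_
  rintro _ ⟨k, rfl⟩
  obtain ⟨g, hg, u, hu, hgu⟩ := Submodule.mem_sup.1 (hvU k)
  obtain ⟨N, hN⟩ := hκbig (k + 1)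
  let s : E := ∑ n ∈ Finset.range N, f n u • x n
  have hs : s ∈ G := G.sum_mem fun n _ => G.smul_mem _ (mem_clspan x n)
  refine ⟨g + s, G.add_mem hg hs, u - s, fun m => ?_, ?_⟩
  · have h1 : f m s = if m < N then f m u else 0 := by
      simp only [s, map_sum, map_smul, hfx, smul_eq_mul]
      rw [← Finset.sum_congr rfl (fun n _ => by
        show (if m = n then f m u else 0) = f n u * (if m = n then 1 else 0)
        split_ifs with h
        · rw [h, mul_one]
        · rw [mul_zero])]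
      rw [Finset.sum_ite_eq]
      simp
    rw [map_sub, h1]
    by_cases hm : m < N
    · rw [if_pos hm, sub_self]
    · rw [if_neg hm, sub_zero]
      exact hf2 m u (hUm (hN m (not_lt.1 hm)) hu)
  · rw [← hgu]; abel

end Pool.Agent.Results.MP_b3b95b_an.BoundedExtensions
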